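import Pool.Agent.H23.CMC.Targets
import Pool.Agent.H58.MZ.SH
import Pool.Agent.H2.PZ.VV

/-!
# (G_AFE) the approximate functional equation
-/

set_option autoImplicit false

open NumberField MeasureTheory Set Filter Complex
open scoped nonZeroDivisors Real

namespace Pool.Agent.H56.CMC

open Pool.Agent.H23.CMC
open Pool.Agent.H65.CM4 (Sq nm dg Pl rv)
open Pool.Agent.H65.CMC (Emb ty PrTo IsHk ms IsLk gg GM cG Km Idx cdc Fmc lc)
open Pool.Agent.H23.CM4 (nJ Jd Nr wB)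

/-- the Gauss factor beats the growth -/
private lemma growth (Ξ : ℂ → ℂ) (C A : ℝ) (s : ℂ) (hs0 : 0 < s.re) (hs1 : s.re < 1)
    (hC : ∀ w : ℂ, |w.re| ≤ 2 → ‖Ξ w‖ ≤ C * Real.exp (A * |w.im|)) (w : ℂ) (h1 : -1 ≤ w.re)
    (h2 : w.re ≤ 2) :
    ‖Ξ w * cexp ((w - s) ^ 2)‖ ≤
      |C| * Real.exp (4 + (|A| + 1) ^ 2 + (|A| + 1) * |s.im|) * Real.exp (-|w.im|) := by
  have hre : |w.re| ≤ 2 := abs_le.2 ⟨by linarith, h2⟩
  have e1 : ‖Ξ w‖ ≤ |C| * Real.exp (|A| * |w.im|) := by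
    refine (hC w hre).trans ?_
    exact mul_le_mul (le_abs_self C) (Real.exp_le_exp.2
      (mul_le_mul_of_nonneg_right (le_abs_self A) (abs_nonneg _))) (Real.exp_pos _).le
      (abs_nonneg C)
  have e3 : ‖cexp ((w - s) ^ 2)‖ = Real.exp ((w.re - s.re) ^ 2 - (w.im - s.im) ^ 2) := by
    rw [Complex.norm_exp]
    congr 1
    rw [pow_two, Complex.mul_re, Complex.sub_re, Complex.sub_im]
    ring
  have e4 : Real.exp (|A| * |w.im|) * Real.exp ((w.re - s.re) ^ 2 - (w.im - s.im) ^ 2) ≤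
      Real.exp (4 + (|A| + 1) ^ 2 + (|A| + 1) * |s.im|) * Real.exp (-|w.im|) := by
    rw [← Real.exp_add, ← Real.exp_add]
    apply Real.exp_le_exp.2
    have a1 : (w.re - s.re) ^ 2 ≤ 4 := by nlinarith
    have a2 : |w.im| ≤ |w.im - s.im| + |s.im| := by
      calc |w.im| = |(w.im - s.im) + s.im| := by rw [sub_add_cancel]
        _ ≤ _ := abs_add_le _ _
    have hB : 0 ≤ |A| + 1 := by positivity
    have a3 : (|A| + 1) * |w.im - s.im| ≤ (w.im - s.im) ^ 2 + (|A| + 1) ^ 2 := by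
      have h := sq_abs (w.im - s.im)
      nlinarith [sq_nonneg (|w.im - s.im| - (|A| + 1)), abs_nonneg (w.im - s.im)]
    have a4 := mul_le_mul_of_nonneg_left a2 hB
    have a5 : |A| * |w.im| + |w.im| = (|A| + 1) * |w.im| := by ring
    rw [mul_add] at a4
    linarith
  rw [norm_mul, e3]
  calc ‖Ξ w‖ * Real.exp ((w.re - s.re) ^ 2 - (w.im - s.im) ^ 2)
      ≤ (|C| * Real.exp (|A| * |w.im|)) *
        Real.exp ((w.re - s.re) ^ 2 - (w.im - s.im) ^ 2) :=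
        mul_le_mul_of_nonneg_right e1 (Real.exp_pos _).le
    _ = |C| * (Real.exp (|A| * |w.im|) *
        Real.exp ((w.re - s.re) ^ 2 - (w.im - s.im) ^ 2)) := by ring
    _ ≤ |C| * (Real.exp (4 + (|A| + 1) ^ 2 + (|A| + 1) * |s.im|) * Real.exp (-|w.im|)) :=
        mul_le_mul_of_nonneg_left e4 (abs_nonneg C)
    _ = _ := by ring

theorem pf_AFE (hXI : T_XIc) (hUNI : T_UNI) (hKSM : T_KSMc) (hDCX : T_DCX) (_hGMP : T_GMP) :
    T_AFEc := by
  intro k _ _ _ K _ _ _ Φ f m ψ L hch hL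
  obtain ⟨Ξ, L', ε, hε, hd, hL', h1, hfe, hgr⟩ := hXI k K Φ f m ψ hch
  refine ⟨ε, hε, fun s hs0 hs1 => ?_⟩
  have hD1 : 1 ≤ dC K f := ((hDCX k K hch.rk).2.2.1 f hch.hk.fne).1
  have hcf : ∀ J : (Ideal (𝓞 K))⁰, ‖cf ψ J‖ ≤ 1 := by
    intro J
    unfold cf
    by_cases hp : PrTo f (J : Ideal (𝓞 K))
    · exact (hch.hk.nrm _ hp).le
    · rw [hch.hk.zer _ hp, norm_zero]
      exact zero_le_one
  have hs1' : s ≠ 1 := by
    rintro rfl; rw [Complex.one_re] at hs1; exact lt_irrefl _ hs1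
  have hK1 := hKSM k K m (dC K f) (fun J => cf ψ J) s hD1 hcf hs0 hs1
  have hK2 := hKSM k K m (dC K f) (fun J => (starRingEnd ℂ) (cf ψ J)) (1 - s) hD1
    (fun J => by rw [Complex.norm_conj]; exact hcf J)
    (by rw [Complex.sub_re, Complex.one_re]; linarith)
    (by rw [Complex.sub_re, Complex.one_re]; linarith)
  refine ⟨_, _, hK1, hK2, ?_⟩
  obtain ⟨C, A, hC⟩ := hgr 2
  have hsh := Pool.Agent.H58.MZ.sh Pool.Agent.H2.PZ.vv (fun w => Ξ w * cexp ((w - s) ^ 2)) (-1) 2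
    (|C| * Real.exp (4 + (|A| + 1) ^ 2 + (|A| + 1) * |s.im|)) s (by linarith) (by linarith)
    (fun w _ _ => by
      have := hd w
      fun_prop)
    (fun w ha hb => growth Ξ C A s hs0 hs1 hC w ha hb)
  simp only [sub_self] at hsh
  have e0 : Ξ s * cexp (0 ^ 2) = Ξ s := by
    rw [zero_pow two_ne_zero, Complex.exp_zero, mul_one]
  rw [e0, h1 s hs0 hs1', ← hUNI K ψ L L' hL hL' s hs1'] at hsh
  rw [← hsh]
  have hre2 : ∀ t : ℝ, 1 < ((2 : ℂ) + t * I).re := by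
    intro t; simp
  have hLs : ∀ t : ℝ, L' (2 + t * I) =
      ∑' J : (Ideal (𝓞 K))⁰, cf ψ J * (nJ J : ℂ) ^ (-((2 : ℂ) + t * I)) := by
    intro t
    rw [← (hL'.2 (2 + t * I) (hre2 t)).tsum_eq]
    refine tsum_congr fun J => ?_
    simp only [cf, nJ]
    push_cast
    rfl
  have i1 : (∫ t : ℝ, Ξ (((2 : ℝ) : ℂ) + t * I) * cexp ((((2 : ℝ) : ℂ) + t * I - s) ^ 2) /
      (((2 : ℝ) : ℂ) + t * I - s)) =
      ∫ t : ℝ, (GM m (2 + t * I) * (dC K f : ℂ) ^ ((2 + t * I) / 2) *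
        ∑' J : (Ideal (𝓞 K))⁰, cf ψ J * (nJ J : ℂ) ^ (-(2 + t * I))) *
        (cexp ((2 + t * I - s) ^ 2) / (2 + t * I - s)) := by
    congr 1
    funext t
    have h2 := hre2 t
    rw [Complex.ofReal_ofNat, h1 _ (by linarith) (by
      intro h3
      rw [h3, Complex.one_re] at h2
      exact lt_irrefl _ h2), hLs, mul_div_assoc]
  have i2 : (∫ t : ℝ, Ξ (((-1 : ℝ) : ℂ) + t * I) * cexp ((((-1 : ℝ) : ℂ) + t * I - s) ^ 2) /
      (((-1 : ℝ) : ℂ) + t * I - s)) =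
      -(ε * ∫ t : ℝ, (GM m (2 + t * I) * (dC K f : ℂ) ^ ((2 + t * I) / 2) *
        ∑' J : (Ideal (𝓞 K))⁰, (starRingEnd ℂ) (cf ψ J) * (nJ J : ℂ) ^ (-(2 + t * I))) *
        (cexp ((2 + t * I - (1 - s)) ^ 2) / (2 + t * I - (1 - s)))) := by
    rw [← integral_neg_eq_self, ← integral_const_mul, ← integral_neg]
    congr 1
    funext t
    have e1 : ((-1 : ℝ) : ℂ) + ((-t : ℝ) : ℂ) * I = 1 - (2 + t * I) := by push_cast; ring
    have e2 : (1 : ℂ) - (2 + t * I) - s = -(2 + t * I - (1 - s)) := by ring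
    rw [e1, hfe _ (hre2 t), e2, neg_sq, div_neg, mul_div_assoc]
    ring
  rw [i1, i2]
  push_cast
  ring

end Pool.Agent.H56.CMC
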