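import Pool.Agent.H23.CMC.Targets

/-!
# MP_52e316_nt, board `cm4_modules`: row G_CO2
-/

set_option autoImplicit false

open NumberField MeasureTheory Set Filter Complex
open scoped nonZeroDivisors Real

namespace Pool.Agent.H56.CMC

open Pool.Agent.H23.CMC
open Pool.Agent.H65.CM4 (Sq nm dg Pl rv)
open Pool.Agent.H65.CMC (Emb ty PrTo IsHk ms IsLk gg GM cG Km Idx cdc Fmc lc)
open Pool.Agent.H23.CM4 (nJ Jd Nr wB)
open Pool.Agent.H23.LC (HG ag)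

theorem pf_CO2 (hCO1 : T_CO1c) (hFX : T_FXc) : T_CO2c := by
  intro k _ _ _ ε hε
  obtain ⟨C, A, hC, h⟩ := hCO1 k ε hε
  refine ⟨C, A, hC, ?_⟩
  intro X η ι K _ _ _ Φ S f m F T hX hη0 hη1 hF hT
  have hex : ∀ q : {q // q ∈ T}, ∃ p ∈ S, p.1 = q.1.1 ∧ f p = q.1.2 ∧ ∃ t : ℝ,
      (1 + |t| + ms (m p)) ^ A * cdc k f p ^ (1 / 8 + η) < ‖F p (1 / 2 + t * I)‖ :=
    fun q => hT q.1 q.2
  choose p hpS hp1 hp2 hp3 using hex
  let e : {q // q ∈ T} ↪ Idx K := ⟨p, by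
    intro i j hij
    refine Subtype.ext (Prod.ext ?_ ?_)
    · rw [← hp1 i, ← hp1 j, hij]
    · rw [← hp2 i, ← hp2 j, hij]⟩
  obtain ⟨g1, g2⟩ := hFX k ι K Φ S f m F 0 X hF
  have hsub : T.attach.map e ⊆ S := by
    intro x hx
    obtain ⟨i, _, rfl⟩ := Finset.mem_map.1 hx
    exact hpS i
  have hF' : Fmc k K Φ (T.attach.map e) f m F 0 X := by
    refine g2 _ 0 X m hsub fun x hx => ?_
    obtain ⟨_, _, _, _, h5, h6, _⟩ := g1 x (hsub hx)
    exact ⟨rfl, h6, h5⟩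
  have h2 := h X (1 / 8 + η) ι K Φ (T.attach.map e) f m F hX (by linarith) (by linarith) hF' (by
    intro x hx
    obtain ⟨i, _, rfl⟩ := Finset.mem_map.1 hx
    exact hp3 i)
  rw [Finset.card_map, Finset.card_attach] at h2
  have h3 : 3 / 2 - 4 * (1 / 8 + η) + ε = 1 - 4 * η + ε := by ring
  rwa [h3] at h2

end Pool.Agent.H56.CMC
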