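import Pool.Agent.H95.CMC.Targets
import Pool.Agent.H13.CM4.CCVF

/-!
# Row F_CVL: the covolume of a lattice
-/

set_option autoImplicit false

open MeasureTheory Set Filter NumberField
open scoped Real nonZeroDivisors

namespace Pool.Agent.H56.CMC

open Pool.Agent.H65.CM4 Pool.Agent.H65.CMC Pool.Agent.H95.CMC
open Pool.Agent.H95.CM (lin lin_add lin_smul T_IXL T_NF2 T_DTW)
open Pool.Agent.H13.CM4 (discr_family linA bV lin_bV lin_inj' fM card_index)
open Module

section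

variable {k K : Type} [Field k] [NumberField k] [IsTotallyReal k] [Field K] [NumberField K]
  [IsTotallyComplex K] [Algebra k K] [Algebra.IsQuadraticExtension k K]

/-- the inclusion of the lattice of integers -/
noncomputable def fL (Λ : Sl k K) : Λ.toAddSubgroup →ₗ[ℤ] K where
  toFun x := ((x : 𝓞 K) : K)
  map_add' x y := by simp
  map_smul' n x := by simp

theorem exists_basis_M {b : ℕ} (hb : 0 < b) (M : La k) (hM : ∀ u : V2 k, (b : 𝓞 k) • u ∈ M) :
    Nonempty (Basis (Fin 2 × Module.Free.ChooseBasisIndex ℤ (𝓞 k)) ℤ M.toAddSubgroup) := by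
  classical
  let N : Submodule ℤ (V2 k) := AddSubgroup.toIntSubmodule M.toAddSubgroup
  have h1 : Module.finrank ℤ N ≤ Module.finrank ℤ (V2 k) := Submodule.finrank_le N
  let g : V2 k →ₗ[ℤ] N :=
    { toFun := fun u => ⟨(b : 𝓞 k) • u, hM u⟩
      map_add' := fun u v => Subtype.ext (smul_add _ _ _)
      map_smul' := fun n u => Subtype.ext (smul_comm (b : 𝓞 k) n u) }
  have hg : Function.Injective g := by
    intro u v h
    have h2 : (b : 𝓞 k) • u = (b : 𝓞 k) • v := congrArg Subtype.val h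
    have hb0 : (b : 𝓞 k) ≠ 0 := by exact_mod_cast hb.ne'
    exact smul_right_injective _ hb0 h2
  have h3 : Module.finrank ℤ (V2 k) ≤ Module.finrank ℤ N :=
    LinearMap.finrank_le_finrank_of_injective hg
  have h4 : Module.finrank ℤ N = Module.finrank ℤ (V2 k) := le_antisymm h1 h3
  have h5 : Fintype.card (Module.Free.ChooseBasisIndex ℤ N) =
      Fintype.card (Fin 2 × Module.Free.ChooseBasisIndex ℤ (𝓞 k)) := by
    rw [← Module.finrank_eq_card_chooseBasisIndex, h4,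
      Module.finrank_eq_card_basis (bV (k := k))]
  exact ⟨(Module.Free.chooseBasis ℤ N).reindex (Fintype.equivOfCardEq h5)⟩

theorem exists_bases' {b : ℕ} (hb : 0 < b) {Λ : Sl k K} {α β : K} {μ : k} {M : La k} {Q : QF k}
    (hO : Ol b Λ α β μ M Q) :
    ∃ (bL : Basis (Fin 2 × Module.Free.ChooseBasisIndex ℤ (𝓞 k)) ℤ Λ.toAddSubgroup)
      (bM : Basis (Fin 2 × Module.Free.ChooseBasisIndex ℤ (𝓞 k)) ℤ M.toAddSubgroup),
      ∀ i, ((bL i : 𝓞 K) : K) = linA α β (bM i : V2 k) := by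
  have iM : Function.Injective (fM α β M) := by
    rw [injective_iff_map_eq_zero]
    intro u hu
    exact Subtype.ext (hO.inj _ hu)
  have iL : Function.Injective (fL Λ) := by
    intro x y h
    exact Subtype.ext (RingOfIntegers.ext h)
  have hr : LinearMap.range (fM α β M) = LinearMap.range (fL Λ) := by
    ext z
    constructor
    · rintro ⟨⟨u, hu⟩, rfl⟩
      have hu' : u ∈ ls α β Λ := hO.lat ▸ hu
      obtain ⟨x, hx, e⟩ := hu'
      exact ⟨⟨x, hx⟩, e⟩
    · rintro ⟨x, rfl⟩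
      obtain ⟨u, hu⟩ := hO.mem x x.2
      have huM : u ∈ M := by
        rw [hO.lat]
        exact ⟨x, x.2, hu.symm⟩
      exact ⟨⟨u, huM⟩, hu⟩
  let e : M.toAddSubgroup ≃ₗ[ℤ] Λ.toAddSubgroup :=
    (LinearEquiv.ofInjective (fM α β M) iM).trans
      ((LinearEquiv.ofEq _ _ hr).trans (LinearEquiv.ofInjective (fL Λ) iL).symm)
  obtain ⟨bM⟩ := exists_basis_M hb M hO.bM
  refine ⟨bM.map e, bM, fun i => ?_⟩
  have h1 : fL Λ (e (bM i)) = fM α β M (bM i) := by
    have h2 : (LinearEquiv.ofInjective (fL Λ) iL) (e (bM i)) =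
        (LinearEquiv.ofEq _ _ hr) ((LinearEquiv.ofInjective (fM α β M) iM) (bM i)) := by
      simp [e]
    have h3 := congrArg Subtype.val h2
    exact h3
  rw [Basis.map_apply]
  exact h1

end

theorem pf_CVL (hDTW : T_DTW) (hNF2 : T_NF2) (hIXL : T_IXL) : T_CVL := by
  classical
  intro k K _ _ _ _ _ _ _ _ b Λ α β μ M Q hb hI hO
  obtain ⟨p, q, r, hp, hr, hn, hpos⟩ := hNF2 k K α β (lin_inj' hO.inj)
  have n1 := hO.nrm (1, 0)
  have n2 := hO.nrm (0, 1)
  have n3 := hO.nrm (1, 1)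
  have ev : ∀ u : V2 k, Algebra.norm k (lin α β u) =
      p * (u.1 : k) ^ 2 + q * ((u.1 : k) * (u.2 : k)) + r * (u.2 : k) ^ 2 := fun u => hn _ _
  rw [ev] at n1 n2 n3
  simp only [val] at n1 n2 n3
  push_cast at n1 n2 n3
  have ep : p = μ * (Q.1 : k) := by linear_combination n1
  have er : r = μ * (Q.2.2 : k) := by linear_combination n2
  have eq : q = μ * (Q.2.1 : k) := by linear_combination n3 - n1 - n2
  have ed : 4 * (p * r) - q ^ 2 = μ ^ 2 * (dsc Q : k) := by
    rw [ep, er, eq, dsc]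
    simp only [map_sub, map_mul, map_pow, map_ofNat]
    ring
  have hposQ : ∀ v : Pl k, 0 < rv v (Q.1 : k) ∧ 0 < rv v (dsc Q : k) := by
    intro v
    obtain ⟨h1, h2⟩ := hpos v
    have hμ := hO.pos v
    rw [ep, map_mul] at h1
    rw [ed, map_mul, map_pow] at h2
    exact ⟨(pos_iff_pos_of_mul_pos h1).1 hμ, (pos_iff_pos_of_mul_pos h2).1 (pow_pos hμ 2)⟩
  refine ⟨hposQ, ?_⟩
  let σ : Module.Free.ChooseBasisIndex ℤ (𝓞 K) ≃ Fin 2 × Module.Free.ChooseBasisIndex ℤ (𝓞 k) :=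
    Fintype.equivOfCardEq (card_index k K)
  let b0 : Basis (Fin 2 × Module.Free.ChooseBasisIndex ℤ (𝓞 k)) ℤ (𝓞 K) :=
    (RingOfIntegers.basis K).reindex σ
  obtain ⟨bL, bM, hIM⟩ := exists_bases' hb hO
  have d0 : Algebra.discr ℚ (fun i => ((b0 i : 𝓞 K) : K)) = (discr K : ℚ) := by
    rw [coe_discr, ← Algebra.discr_reindex ℚ (integralBasis K) σ]
    congr 1
    funext i
    simp [b0, integralBasis_apply]
  have d1 : Algebra.discr ℚ (fun i => ((bL i : 𝓞 K) : K)) =
      ((b0.det (fun i => (bL i : 𝓞 K)) : ℤ) : ℚ) ^ 2 * (discr K : ℚ) := by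
    rw [← d0]
    exact discr_family b0 (fun i => (bL i : 𝓞 K)) (algebraMap (𝓞 K) K).toAddMonoidHom
  have d2 : Algebra.discr ℚ (fun i => ((bL i : 𝓞 K) : K)) =
      ((bV.det (fun i => (bM i : V2 k)) : ℤ) : ℚ) ^ 2 *
        Algebra.discr ℚ (fun i : Fin 2 × Module.Free.ChooseBasisIndex ℤ (𝓞 k) =>
        algebraMap k K (integralBasis k i.2) * (if i.1 = 0 then α else β)) := by
    have h := discr_family (K := K) bV (fun i => (bM i : V2 k)) (linA α β)
    simp only [lin_bV] at h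
    rw [← h]
    congr 1
    funext i
    exact hIM i
  have a1 : ((b0.det (fun i => (bL i : 𝓞 K)) : ℤ) : ℝ) ^ 2 = (ixs Λ : ℝ) ^ 2 := by
    have h : ixs Λ = (b0.det (fun i => (bL i : 𝓞 K))).natAbs :=
      AddSubgroup.index_eq_natAbs_det b0 Λ.toAddSubgroup bL
    rw [h, Nat.cast_natAbs, Int.cast_abs, sq_abs]
  have a2 : ((bV.det (fun i => (bM i : V2 k)) : ℤ) : ℝ) ^ 2 = (ix M : ℝ) ^ 2 := by
    have h : ix M = (bV.det (fun i => (bM i : V2 k))).natAbs :=
      AddSubgroup.index_eq_natAbs_det bV M.toAddSubgroup bM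
    rw [h, Nat.cast_natAbs, Int.cast_abs, sq_abs]
  have hD := hDTW k K α β p q r hn
  have h3 := d1.symm.trans d2
  have h4 := congrArg (fun x : ℚ => |(x : ℝ)|) h3
  push_cast at h4
  rw [abs_mul, abs_mul, abs_sq, abs_sq, a1, a2, hD, ed] at h4
  rw [h4]
  have h5 : ∏ v : Pl k, |rv v (μ ^ 2 * (dsc Q : k))| =
      (∏ v : Pl k, rv v μ) ^ 2 * ∏ v : Pl k, rv v (dsc Q : k) := by
    rw [← Finset.prod_pow, ← Finset.prod_mul_distrib]
    refine Finset.prod_congr rfl fun v _ => ?_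
    rw [map_mul, map_pow, abs_of_pos (mul_pos (pow_pos (hO.pos v) 2) (hposQ v).2)]
  rw [h5]
  ring

end Pool.Agent.H56.CMC
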