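import Pool.Agent.H89.CMC.Targets2

/-!
# The row E_QCM: the metric and the angular factor with complex parameters
-/

set_option autoImplicit false

open MeasureTheory Set Filter NumberField NumberField.InfinitePlace
open scoped Real

namespace Pool.Agent.H56.CMC

open Pool.Agent.H65.CM4 Pool.Agent.H65.CMC Pool.Agent.H89.CM4 Pool.Agent.H89.CMC

/-- elementary inequalities for the two norms -/
theorem el_bd (δ p b y1 x2 y2 : ℝ) (hd : δ ≤ 1 / 100) (hy : 0 < y1) (hx2 : |x2| ≤ δ * y1)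
    (hy2 : |y2| ≤ δ * y1) (hpb : ¬ (p = 0 ∧ b = 0)) :
    0 < p ^ 2 + b ^ 2 * y1 ^ 2 ∧
    (p ^ 2 + b ^ 2 * y1 ^ 2) / 2 ≤ (p + b * y2) ^ 2 + (b * (x2 - y1)) ^ 2 ∧
    (p ^ 2 + b ^ 2 * y1 ^ 2) / 2 ≤ (p - b * y2) ^ 2 + (b * (x2 + y1)) ^ 2 ∧
    (p - b * y2) ^ 2 + (b * (x2 + y1)) ^ 2 ≤
      (1 + 12 * δ) * ((p + b * y2) ^ 2 + (b * (x2 - y1)) ^ 2) ∧
    (p + b * y2) ^ 2 + (b * (x2 - y1)) ^ 2 ≤
      (1 + 12 * δ) * ((p - b * y2) ^ 2 + (b * (x2 + y1)) ^ 2) := by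
  have hd0 : 0 ≤ δ := by
    by_contra h
    have h1 : δ * y1 < 0 := mul_neg_of_neg_of_pos (not_le.1 h) hy
    have h2 := abs_nonneg x2
    linarith
  have hH : 0 < p ^ 2 + b ^ 2 * y1 ^ 2 := by
    by_cases hp : p = 0
    · have hb : b ≠ 0 := fun h => hpb ⟨hp, h⟩
      have h1 : 0 < b ^ 2 * y1 ^ 2 := by positivity
      have h2 := sq_nonneg p
      linarith
    · have h1 : 0 < p ^ 2 := by positivity
      have h2 : 0 ≤ b ^ 2 * y1 ^ 2 := by positivity
      linarith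
  set H := p ^ 2 + b ^ 2 * y1 ^ 2 with hHd
  have e1 : |p * (b * y2)| ≤ δ * H / 2 := by
    have h1 : |p * (b * y2)| = |p| * |b| * |y2| := by rw [abs_mul, abs_mul, mul_assoc]
    have h2 : |p| * |b| * |y2| ≤ |p| * |b| * (δ * y1) :=
      mul_le_mul_of_nonneg_left hy2 (by positivity)
    have h3 : |p| * (|b| * y1) ≤ H / 2 := by
      have h4 := sq_nonneg (|p| - |b| * y1)
      have h5 : |p| ^ 2 = p ^ 2 := sq_abs p
      have h6 : |b| ^ 2 = b ^ 2 := sq_abs b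
      have h7 : (|p| - |b| * y1) ^ 2 = |p| ^ 2 + |b| ^ 2 * y1 ^ 2 - 2 * (|p| * (|b| * y1)) := by
        ring
      rw [h5, h6] at h7
      rw [hHd]
      linarith
    have h8 := mul_le_mul_of_nonneg_left h3 hd0
    have h9 : |p| * |b| * (δ * y1) = δ * (|p| * (|b| * y1)) := by ring
    rw [h1]
    linarith
  have e2 : |b ^ 2 * (x2 * y1)| ≤ δ * H := by
    have h1 : |b ^ 2 * (x2 * y1)| = b ^ 2 * (|x2| * y1) := by
      rw [abs_mul, abs_mul, abs_of_nonneg (sq_nonneg b), abs_of_pos hy]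
    have h2 : b ^ 2 * (|x2| * y1) ≤ b ^ 2 * (δ * y1 * y1) :=
      mul_le_mul_of_nonneg_left (mul_le_mul_of_nonneg_right hx2 hy.le) (sq_nonneg b)
    have h3 : b ^ 2 * (δ * y1 * y1) = δ * (b ^ 2 * y1 ^ 2) := by ring
    have h4 : δ * (b ^ 2 * y1 ^ 2) ≤ δ * H :=
      mul_le_mul_of_nonneg_left (by rw [hHd]; nlinarith [sq_nonneg p]) hd0
    rw [h1]
    linarith
  have f1 := abs_le.1 e1
  have f2 := abs_le.1 e2
  have hdH : δ * H ≤ H / 100 := by
    have := mul_le_mul_of_nonneg_right hd hH.le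
    linarith
  have n1 : (p + b * y2) ^ 2 + (b * (x2 - y1)) ^ 2 = H + 2 * (p * (b * y2)) -
      2 * (b ^ 2 * (x2 * y1)) + (b * y2) ^ 2 + (b * x2) ^ 2 := by rw [hHd]; ring
  have n2 : (p - b * y2) ^ 2 + (b * (x2 + y1)) ^ 2 = H - 2 * (p * (b * y2)) +
      2 * (b ^ 2 * (x2 * y1)) + (b * y2) ^ 2 + (b * x2) ^ 2 := by rw [hHd]; ring
  have s1 := sq_nonneg (b * y2)
  have s2 := sq_nonneg (b * x2)
  have g1 : H / 2 ≤ (p + b * y2) ^ 2 + (b * (x2 - y1)) ^ 2 := by rw [n1]; linarith [f1.1, f2.2]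
  have g2 : H / 2 ≤ (p - b * y2) ^ 2 + (b * (x2 + y1)) ^ 2 := by rw [n2]; linarith [f1.2, f2.1]
  refine ⟨hH, g1, g2, ?_, ?_⟩
  · have h1 := mul_le_mul_of_nonneg_left g1 (by linarith : (0 : ℝ) ≤ 12 * δ)
    have h2 : (p - b * y2) ^ 2 + (b * (x2 + y1)) ^ 2 ≤
        (p + b * y2) ^ 2 + (b * (x2 - y1)) ^ 2 + 6 * (δ * H) := by
      rw [n1, n2]; linarith [f1.1, f2.2]
    linarith
  · have h1 := mul_le_mul_of_nonneg_left g2 (by linarith : (0 : ℝ) ≤ 12 * δ)
    have h2 : (p + b * y2) ^ 2 + (b * (x2 - y1)) ^ 2 ≤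
        (p - b * y2) ^ 2 + (b * (x2 + y1)) ^ 2 + 6 * (δ * H) := by
      rw [n1, n2]; linarith [f1.2, f2.1]
    linarith

/-- the angular factor of a place -/
theorem place_bd (B K T r : ℝ) (x y : ℂ) (a b : ℝ) (hB : 1 ≤ B) (hT : 1 ≤ T) (hr : 0 < r)
    (hK : 100 * B ≤ K) (h2 : r / B < y.re) (h4 : K * T * |x.im| < r) (h5 : K * T * |y.im| < r)
    (hab : ¬ (a = 0 ∧ b = 0)) :
    (a : ℂ) + b * (x - Complex.I * y) ≠ 0 ∧ (a : ℂ) + b * (x + Complex.I * y) ≠ 0 ∧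
    ∀ m : ℤ, ‖ac x y a b ^ m‖ ≤ Real.exp (6 * B / (K * T) * |(m : ℝ)|) := by
  have hB0 : 0 < B := by linarith
  have hK0 : 0 < K := by linarith
  have hT0 : 0 < T := by linarith
  have hKT : 0 < K * T := mul_pos hK0 hT0
  have hy1 : 0 < y.re := lt_trans (div_pos hr hB0) h2
  have hry : r < B * y.re := by
    have := (div_lt_iff₀ hB0).1 h2
    linarith
  set δ := B / (K * T) with hδ
  have hd : δ ≤ 1 / 100 := by
    rw [hδ, div_le_iff₀ hKT]
    have : K * 1 ≤ K * T := mul_le_mul_of_nonneg_left hT hK0.le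
    linarith
  have hd0 : 0 ≤ δ := (div_pos hB0 hKT).le
  have hx2 : |x.im| ≤ δ * y.re := by
    rw [hδ, div_mul_eq_mul_div, le_div_iff₀ hKT]
    linarith
  have hy2 : |y.im| ≤ δ * y.re := by
    rw [hδ, div_mul_eq_mul_div, le_div_iff₀ hKT]
    linarith
  have hpb : ¬ (a + b * x.re = 0 ∧ b = 0) := by
    rintro ⟨h6, h7⟩
    exact hab ⟨by rw [h7] at h6; linarith, h7⟩
  obtain ⟨hH, g1, g2, g3, g4⟩ := el_bd δ (a + b * x.re) b y.re x.im y.im hd hy1 hx2 hy2 hpb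
  have m1 : Complex.normSq ((a : ℂ) + b * (x - Complex.I * y)) =
      (a + b * x.re + b * y.im) ^ 2 + (b * (x.im - y.re)) ^ 2 := by
    rw [Complex.normSq_apply]
    simp only [Complex.add_re, Complex.add_im, Complex.mul_re, Complex.mul_im, Complex.sub_re,
      Complex.sub_im, Complex.ofReal_re, Complex.ofReal_im, Complex.I_re, Complex.I_im]
    ring
  have m2 : Complex.normSq ((a : ℂ) + b * (x + Complex.I * y)) =
      (a + b * x.re - b * y.im) ^ 2 + (b * (x.im + y.re)) ^ 2 := by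
    rw [Complex.normSq_apply]
    simp only [Complex.add_re, Complex.add_im, Complex.mul_re, Complex.mul_im,
      Complex.ofReal_re, Complex.ofReal_im, Complex.I_re, Complex.I_im]
    ring
  have p1 : 0 < Complex.normSq ((a : ℂ) + b * (x - Complex.I * y)) := by
    rw [m1]; linarith
  have p2 : 0 < Complex.normSq ((a : ℂ) + b * (x + Complex.I * y)) := by
    rw [m2]; linarith
  have z1 : (a : ℂ) + b * (x - Complex.I * y) ≠ 0 := Complex.normSq_pos.1 p1
  have z2 : (a : ℂ) + b * (x + Complex.I * y) ≠ 0 := Complex.normSq_pos.1 p2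
  rw [← m1, ← m2] at g3 g4
  have hexp : 1 + 12 * δ ≤ Real.exp (6 * δ) ^ 2 := by
    rw [← Real.exp_nat_mul]
    have := Real.add_one_le_exp (((2 : ℕ) : ℝ) * (6 * δ))
    push_cast at this ⊢
    linarith
  have key : ∀ w w' : ℂ, w ≠ 0 → Complex.normSq w' ≤ (1 + 12 * δ) * Complex.normSq w →
      ‖w' / w‖ ≤ Real.exp (6 * δ) := by
    intro w w' hw h
    rw [norm_div, div_le_iff₀ (norm_pos_iff.2 hw)]
    refine le_of_sq_le_sq ?_ (by positivity)
    rw [mul_pow, ← Complex.normSq_eq_norm_sq, ← Complex.normSq_eq_norm_sq]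
    exact h.trans (mul_le_mul_of_nonneg_right hexp (Complex.normSq_nonneg w))
  have k1 := key _ _ z1 g3
  have k2 := key _ _ z2 g4
  refine ⟨z1, z2, fun m => ?_⟩
  have hfin : ∀ n : ℕ, Real.exp (6 * δ) ^ n = Real.exp (6 * B / (K * T) * (n : ℝ)) := by
    intro n
    rw [← Real.exp_nat_mul, hδ]
    congr 1
    ring
  obtain ⟨n, rfl | rfl⟩ := m.eq_nat_or_neg
  · rw [zpow_natCast, norm_pow]
    have h6 : |(((n : ℕ) : ℤ) : ℝ)| = (n : ℝ) := by simp
    rw [h6, ← hfin]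
    exact pow_le_pow_left₀ (norm_nonneg _) k1 n
  · rw [zpow_neg, zpow_natCast, ← inv_pow, norm_pow]
    have h6 : |((-((n : ℕ) : ℤ) : ℤ) : ℝ)| = (n : ℝ) := by simp
    rw [h6, ← hfin]
    refine pow_le_pow_left₀ (norm_nonneg _) ?_ n
    have h7 : (ac x y a b)⁻¹ = ((a : ℂ) + b * (x - Complex.I * y)) /
        ((a : ℂ) + b * (x + Complex.I * y)) := by
      unfold ac
      rw [inv_div]
    rw [h7]
    exact k2

theorem pf_QCM (k : Type) [Field k] [NumberField k] [IsTotallyReal k] (hQCB : T_QCB k) :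
    T_QCM k := by
  intro B hB
  obtain ⟨K₀, c, C₀, hK₀, hc, hc1, hC₀, h0⟩ := hQCB B hB
  refine ⟨max K₀ (100 * B), c, max C₀ 3, le_max_of_le_left hK₀, hc, hc1, le_max_of_le_left hC₀, ?_⟩
  intro r m s x y u hr hR hu
  have hms : 0 ≤ ms m := Finset.sum_nonneg fun v _ => abs_nonneg _
  have hT1 : 1 ≤ Tm m s := by
    unfold Tm
    have := abs_nonneg s.im
    linarith
  have hTms : ms m ≤ Tm m s := by
    unfold Tm
    have := abs_nonneg s.im
    linarith
  have ht : 1 + |Tm m s - 1| = Tm m s := by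
    rw [abs_of_nonneg (by linarith)]
    ring
  have hRg : Rg B K₀ r (Tm m s - 1) x y := by
    intro v
    obtain ⟨r1, r2, r3, r4, r5⟩ := hR v
    rw [ht]
    refine ⟨r1, r2, r3, lt_of_le_of_lt ?_ r4, lt_of_le_of_lt ?_ r5⟩
    · exact mul_le_mul_of_nonneg_right
        (mul_le_mul_of_nonneg_right (le_max_left _ _) (by linarith)) (abs_nonneg _)
    · exact mul_le_mul_of_nonneg_right
        (mul_le_mul_of_nonneg_right (le_max_left _ _) (by linarith)) (abs_nonneg _)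
  obtain ⟨q1, q2, q3, q4⟩ := h0 r (Tm m s - 1) x y u hr hRg hu
  rw [ht] at q2
  have hn : 0 ≤ nn r u := by
    unfold nn nr
    refine Finset.prod_nonneg fun v _ => ?_
    have := hr.le
    positivity
  have hab : ∀ v : Pl k, ¬ (rv v (u.1 : k) = 0 ∧ rv v (u.2 : k) = 0) := by
    rintro v ⟨h1, h2⟩
    apply hu
    have h3 : (u.1 : k) = 0 := (map_eq_zero (rv v)).1 h1
    have h4 : (u.2 : k) = 0 := (map_eq_zero (rv v)).1 h2
    exact Prod.ext (RingOfIntegers.ext h3) (RingOfIntegers.ext h4)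
  have hK : 100 * B ≤ max K₀ (100 * B) := le_max_right _ _
  set K := max K₀ (100 * B) with hKd
  have hpl : ∀ v : Pl k, _ := fun v => place_bd B K (Tm m s) r (x v) (y v) (rv v (u.1 : k))
    (rv v (u.2 : k)) hB hT1 hr hK (hR v).2.1 (hR v).2.2.2.1 (hR v).2.2.2.2 (hab v)
  refine ⟨q1, q2, q3, q4.trans (mul_le_mul_of_nonneg_right (le_max_left _ _) hn), ?_,
    fun v => ⟨(hpl v).1, (hpl v).2.1⟩⟩
  have hB0 : 0 < B := by linarith
  have hK0 : 0 < K := by linarith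
  unfold an
  rw [norm_prod]
  refine le_max_of_le_right ?_
  calc ∏ v : Pl k, ‖ac (x v) (y v) (rv v (u.1 : k)) (rv v (u.2 : k)) ^ (m v)‖
      ≤ ∏ v : Pl k, Real.exp (6 * B / (K * Tm m s) * |(m v : ℝ)|) :=
        Finset.prod_le_prod (fun v _ => norm_nonneg _) fun v _ => (hpl v).2.2 (m v)
    _ = Real.exp (6 * B / (K * Tm m s) * ms m) := by
        rw [← Real.exp_sum, ← Finset.mul_sum]
        rfl
    _ ≤ Real.exp 1 := by
        refine Real.exp_le_exp.2 ?_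
        rw [div_mul_eq_mul_div, div_le_one (mul_pos hK0 (by linarith))]
        have h1 : 6 * B * ms m ≤ 6 * B * Tm m s :=
          mul_le_mul_of_nonneg_left hTms (by linarith)
        have h2 : 6 * B * Tm m s ≤ K * Tm m s :=
          mul_le_mul_of_nonneg_right (by linarith) (by linarith)
        linarith
    _ ≤ 3 := by
        have := Real.exp_one_lt_d9
        linarith

end Pool.Agent.H56.CMC
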